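import Pool.Agent.H67.SD

/-! For odd `p`, no minimum cover of `{He_p, (C_{p^{k+2}})^p}` is an LCM-group. -/

namespace Pool.Agent.Results.MP_8c719a_al.Infinite

open Pool.Agent.H67.SD

/-- `G` is an LCM-group -/
def IsLCM (G : Type) [Group G] : Prop :=
  ∀ (x y : G) (n : ℕ), orderOf (x ^ n * y) ∣ Nat.lcm (orderOf (x ^ n)) (orderOf y)

/-- `G` contains subgroups isomorphic to `H` and to `A` -/
def Cover (H A G : Type) [Group H] [Group A] [Group G] : Prop :=
  (∃ f : H →* G, Function.Injective f) ∧ ∃ f : A →* G, Function.Injective f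

theorem main (p : ℕ) [hp : Fact p.Prime] (H A : Type) [Group H] [CommGroup A] [Finite A]
    (hA : IsPGroup p A) (hH : ∀ x : H, x ^ p = 1) (hn : ∃ x y : H, x * y ≠ y * x)
    (hd : ∀ a : A, a ^ p = 1 → ∃ b, b ^ p = a) (G : Type) [Group G] [Finite G]
    (hG : Cover H A G) (hc : Nat.card G ≤ p * Nat.card A) : ¬ IsLCM G := by
  intro hL
  obtain ⟨⟨h, hh⟩, f, hf⟩ := hG
  obtain ⟨x0, y0, hn⟩ := hn
  have hHp : IsPGroup p H := fun x => ⟨1, by simp [hH]⟩
  obtain ⟨P, hP⟩ := (hA.of_surjective _ f.rangeRestrict_surjective).exists_le_sylow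
  obtain ⟨Q, hQ⟩ := (hHp.of_surjective _ h.rangeRestrict_surjective).exists_le_sylow
  obtain ⟨g, hg⟩ := MulAction.exists_smul_eq G Q P
  have hcA : Nat.card f.range = Nat.card A :=
    (Nat.card_congr (MonoidHom.ofInjective hf).toEquiv).symm
  have hne : f.range ≠ P := by
    intro he
    have k : ∀ x, ∃ a, f a = g * h x * g⁻¹ := fun x => by
      change _ ∈ f.range
      rw [he, ← hg]
      exact Subgroup.smul_mem_pointwise_smul _ (MulAut.conj g) _ (hQ ⟨x, rfl⟩)
    obtain ⟨a, ha⟩ := k x0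
    obtain ⟨b, hb⟩ := k y0
    have e : f a * f b = f b * f a := by rw [← map_mul, mul_comm, map_mul]
    rw [ha, hb] at e
    simp only [← mul_assoc, mul_left_inj] at e
    exact hn (hh (by simpa [mul_assoc] using e))
  have hi : f.range.index = p := by
    obtain ⟨n, hn⟩ := P.2.index (f.range.subgroupOf P)
    have h1 : n ≠ 0 := by
      rintro rfl
      exact hne (le_antisymm hP (Subgroup.subgroupOf_eq_top.1 (Subgroup.index_eq_one.1 hn)))
    have h2 : p ∣ f.range.index := ((dvd_pow_self p h1).trans hn.symm.dvd).trans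
      (Subgroup.relIndex_dvd_index_of_le hP)
    have h3 := f.range.card_mul_index
    rw [← h3, hcA, mul_comm] at hc
    exact le_antisymm (Nat.le_of_mul_le_mul_right hc Nat.card_pos)
      (Nat.le_of_dvd (Nat.pos_of_ne_zero Subgroup.index_ne_zero_of_finite) h2)
  haveI hN : f.range.Normal := by
    apply Subgroup.normal_of_index_eq_minFac_card
    obtain ⟨n, hn⟩ := IsPGroup.iff_card.1 hA
    rw [← f.range.card_mul_index, hi, hcA, hn, ← pow_succ, hp.out.pow_minFac (by omega)]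
  haveI : IsCyclic (G ⧸ f.range) := isCyclic_of_prime_card (p := p) hi
  refine hn (commutative_of_cyclic_center_quotient ((QuotientGroup.mk' f.range).comp h)
    (fun n hn => Subgroup.mem_center_iff.2 fun x => hh ?_) x0 y0)
  obtain ⟨a, ha⟩ : h n ∈ f.range := (QuotientGroup.eq_one_iff _).1 hn
  obtain ⟨b, rfl⟩ := hd a (hf (by rw [map_pow, ha, ← map_pow, hH, map_one, map_one]))
  have hy : h x ^ p = 1 := by rw [← map_pow, hH, map_one]
  have h1 := hL (h x) (f b * (h x)⁻¹ * (f b)⁻¹) 1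
  rw [pow_one] at h1
  have h2 := orderOf_dvd_iff_pow_eq_one.1 (h1.trans (Nat.lcm_dvd (orderOf_dvd_of_pow_eq_one hy)
    (orderOf_dvd_of_pow_eq_one (by rw [conj_pow, inv_pow, hy]; simp))))
  obtain ⟨c, hc⟩ := hN.conj_mem _ ⟨b, rfl⟩ (h x)
  have h3 : h x * (f b * (h x)⁻¹ * (f b)⁻¹) = f (c * b⁻¹) := by
    rw [map_mul, hc, map_inv]; simp only [mul_assoc]
  rw [h3, ← map_pow, mul_pow, map_mul, map_pow, hc, conj_pow, inv_pow, map_inv, ← map_pow, ha,
    mul_inv_eq_one, mul_inv_eq_iff_eq_mul] at h2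
  rw [map_mul, map_mul, h2]

variable (p k : ℕ)

abbrev K := Multiplicative (ZMod p)

def W := ZMod p → ZMod (p ^ (k + 2))

instance : AddCommGroup (W p k) := inferInstanceAs (AddCommGroup (ZMod p → ZMod (p ^ (k + 2))))

instance : DistribMulAction (K p) (W p k) where
  smul g w := fun i => w (i + g.toAdd)
  one_smul w := funext fun i => congrArg w (add_zero i)
  mul_smul g h w := funext fun i => congrArg w (add_assoc i _ _).symm
  smul_zero _ := rfl
  smul_add _ _ _ := rfl

def U := ZMod p × ZMod p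

instance : AddCommGroup (U p) := inferInstanceAs (AddCommGroup (ZMod p × ZMod p))

instance : DistribMulAction (K p) (U p) where
  smul g w := (w.1, w.2 + g.toAdd * w.1)
  one_smul w := Prod.ext rfl (by change w.2 + 0 * w.1 = w.2; ring)
  mul_smul g h w := Prod.ext rfl (by
    change w.2 + (g.toAdd + h.toAdd) * w.1 = w.2 + h.toAdd * w.1 + g.toAdd * w.1; ring)
  smul_zero g := Prod.ext rfl (by change (0 : ZMod p) + g.toAdd * 0 = 0; ring)
  smul_add g a b := Prod.ext rfl (by
    change a.2 + b.2 + g.toAdd * (a.1 + b.1) = a.2 + g.toAdd * a.1 + (b.2 + g.toAdd * b.1); ring)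

abbrev He := Aff (U p) (K p)

theorem He_pow (x : He p) (n : ℕ) : (x ^ n).g.toAdd = n * x.g.toAdd ∧ (x ^ n).v.1 = n * x.v.1 ∧
    (x ^ n).v.2 = n * x.v.2 + (n.choose 2 : ℕ) * x.g.toAdd * x.v.1 := by
  induction n with
  | zero => exact ⟨by simp, by change (0 : ZMod p) = _; simp, by
      change (0 : ZMod p) = _; simp⟩
  | succ n ih =>
    rw [pow_succ]
    refine ⟨?_, ?_, ?_⟩
    · change (x ^ n).g.toAdd + x.g.toAdd = _
      rw [ih.1]; push_cast; ring
    · change (x ^ n).v.1 + x.v.1 = _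
      rw [ih.2.1]; push_cast; ring
    · change (x ^ n).v.2 + (x.v.2 + (x ^ n).g.toAdd * x.v.1) = _
      rw [ih.2.2, ih.1, Nat.choose_succ_succ' n 1]; simp; ring

theorem He_exp (hp : p.Prime) (h2 : p ≠ 2) (x : He p) : x ^ p = 1 := by
  obtain ⟨h1, h3, h4⟩ := He_pow p x p
  have e : ((p.choose 2 : ℕ) : ZMod p) = 0 := (ZMod.natCast_eq_zero_iff _ _).2
    (hp.dvd_choose_self two_ne_zero (lt_of_le_of_ne hp.two_le h2.symm))
  simp only [ZMod.natCast_self, zero_mul, e, add_zero] at h1 h3 h4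
  exact Aff.ext (Prod.ext h3 h4) h1

def io : ZMod p →+ ZMod (p ^ (k + 2)) :=
  ZMod.lift p ⟨zmultiplesHom _ ((p ^ (k + 1) : ℕ) : ZMod (p ^ (k + 2))), by
    change (p : ℤ) • ((p ^ (k + 1) : ℕ) : ZMod (p ^ (k + 2))) = 0
    rw [natCast_zsmul, nsmul_eq_mul, ← Nat.cast_mul, ← pow_succ', ZMod.natCast_self]⟩

theorem io_inj (hp : p.Prime) : Function.Injective (io p k) := by
  rw [io, ZMod.lift_injective]
  intro m hm
  change m • ((p ^ (k + 1) : ℕ) : ZMod (p ^ (k + 2))) = 0 at hm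
  rw [zsmul_eq_mul, ← Int.cast_natCast, ← Int.cast_mul, ZMod.intCast_zmod_eq_zero_iff_dvd] at hm
  rw [ZMod.intCast_zmod_eq_zero_iff_dvd]
  push_cast at hm
  rw [pow_succ' _ (k + 1)] at hm
  exact Int.dvd_of_mul_dvd_mul_right (pow_ne_zero _ (Int.natCast_ne_zero.2 hp.ne_zero)) hm

def emb : He p →* Aff (W p k) (K p) := MonoidHom.mk'
  (fun x => ⟨fun i => io p k (x.v.2 + i * x.v.1), x.g⟩) fun x y => Aff.ext (funext fun i => by
    change io p k (x.v.2 + (y.v.2 + x.g.toAdd * y.v.1) + i * (x.v.1 + y.v.1)) =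
      io p k (x.v.2 + i * x.v.1) + io p k (y.v.2 + (i + x.g.toAdd) * y.v.1)
    rw [← map_add]; congr 1; ring) rfl

theorem emb_inj (hp : p.Prime) : Function.Injective (emb p k) := fun x y h => by
  have h0 := io_inj p k hp (congrFun (congrArg Aff.v h) 0)
  have h1 := io_inj p k hp (congrFun (congrArg Aff.v h) 1)
  simp only [zero_mul, add_zero, one_mul] at h0 h1
  rw [h0, add_right_inj] at h1
  have h2 := congrArg Aff.g h
  exact Aff.ext (Prod.ext h1 h0) h2

abbrev A := Multiplicative (W p k)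

def inl : A p k →* Aff (W p k) (K p) :=
  MonoidHom.mk' (fun a => ⟨a.toAdd, 1⟩) fun _ _ => Aff.ext (by simp) (by simp)

theorem result (p : ℕ) (hp : p.Prime) (h2 : p ≠ 2) :
    ∃ (H : Type) (_ : Group H) (_ : Finite H) (A : ℕ → Type) (_ : ∀ k, Group (A k))
      (_ : ∀ k, Finite (A k)), IsPGroup p H ∧ IsLCM H ∧ (∀ k, IsPGroup p (A k) ∧ IsLCM (A k)) ∧
      (∀ k l, Nonempty (A k ≃* A l) → k = l) ∧
      ∀ (k : ℕ) (G : Type) [Group G] [Finite G], Cover H (A k) G →
        (∀ (G' : Type) [Group G'] [Finite G'], Cover H (A k) G' → Nat.card G ≤ Nat.card G') →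
        ¬ IsLCM G := by
  haveI := Fact.mk hp
  haveI : Finite (U p) := inferInstanceAs (Finite (ZMod p × ZMod p))
  haveI : ∀ k, Finite (W p k) := fun k => inferInstanceAs (Finite (ZMod p → ZMod (p ^ (k + 2))))
  have hc : ∀ k, Nat.card (A p k) = p ^ ((k + 2) * p) := fun k => by
    change Nat.card (ZMod p → ZMod (p ^ (k + 2))) = _
    rw [Nat.card_fun, Nat.card_zmod, Nat.card_zmod, pow_mul]
  refine ⟨He p, inferInstance, inferInstance, A p, inferInstance, inferInstance,
    fun x => ⟨1, by simp [He_exp p hp h2]⟩, fun x y n => ?_,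
    fun k => ⟨.of_card (hc k), fun x y n => (Commute.all _ _).orderOf_mul_dvd_lcm⟩,
    fun k l ⟨e⟩ => ?_, fun k G _ _ hG hm => ?_⟩
  · by_cases h : x ^ n = 1
    · simp [h]
    · rw [orderOf_eq_prime (He_exp p hp h2 _) h]
      exact (orderOf_dvd_of_pow_eq_one (He_exp p hp h2 _)).trans (Nat.dvd_lcm_left _ _)
  · have := Nat.card_congr e.toEquiv
    rw [hc, hc] at this
    have := Nat.eq_of_mul_eq_mul_right hp.pos (Nat.pow_right_injective hp.two_le this)
    omega
  · refine main p _ _ (.of_card (hc k)) (He_exp p hp h2)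
      ⟨⟨((1, 0) : ZMod p × ZMod p), 1⟩, ⟨0, Multiplicative.ofAdd 1⟩, fun h => ?_⟩
      (fun a ha => ?_) G hG ((hm _ ⟨⟨_, emb_inj p k hp⟩, inl p k, fun a b h =>
        congrArg Aff.v h⟩).trans (le_of_eq ?_))
    · have := congrArg (fun x : He p => x.v.2) h
      change (0 : ZMod p) + (0 + 0 * 0) = 0 + (0 + 1 * 1) at this
      simp at this
    · have : ∀ i, ∃ b : ZMod (p ^ (k + 2)), p • b = a.toAdd i := fun i => by
        have h1 : p • a.toAdd i = 0 := congrFun (congrArg Multiplicative.toAdd ha) i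
        obtain ⟨m, hm⟩ := ZMod.intCast_surjective (a.toAdd i)
        rw [← hm, nsmul_eq_mul, ← Int.cast_natCast, ← Int.cast_mul,
          ZMod.intCast_zmod_eq_zero_iff_dvd] at h1
        push_cast at h1
        rw [pow_succ' _ (k + 1)] at h1
        obtain ⟨c, rfl⟩ := (dvd_pow_self (p : ℤ) k.succ_ne_zero).trans
          (Int.dvd_of_mul_dvd_mul_left (Int.natCast_ne_zero.2 hp.ne_zero) h1)
        exact ⟨c, by rw [← hm]; simp⟩
      choose b hb using this
      exact ⟨Multiplicative.ofAdd b, congrArg Multiplicative.ofAdd (funext hb)⟩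
    · rw [card_eq, mul_comm]
      congr 1
      exact Nat.card_zmod p

end Pool.Agent.Results.MP_8c719a_al.Infinite
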